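import Mathlib
import Pool.Agent.P.MP_a5df39_co.Main

set_option autoImplicit false

namespace Pool.Agent.Results.MP_a5df39_co.Subexponential

/-- `C` is `k`-centerpole in the lattice of dimension `n`: every `k`-colouring has an infinite
monochromatic set that is symmetric with respect to a point of `C`. -/
def IsCenterpole (n k : ℕ) (C : Set (Fin n → ℤ)) : Prop :=
  ∀ χ : (Fin n → ℤ) → Fin k, ∃ c ∈ C, ∃ S : Set (Fin n → ℤ),
    S.Infinite ∧ (∀ s ∈ S, ∀ t ∈ S, χ s = χ t) ∧ S = (fun s => 2 • c - s) '' S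

/-- The least cardinality of a `k`-centerpole set (infinity when there is no finite one). -/
noncomputable def centerpoleNumber (n k : ℕ) : ℕ∞ :=
  ⨅ C ∈ {C : Set (Fin n → ℤ) | IsCenterpole n k C}, C.encard

theorem result :
    (∀ n : ℕ, 2 ≤ n → (centerpoleNumber n n : ENNReal) ≤
      ENNReal.ofReal (Real.exp (18 * √(n * Real.log n) * Real.log n))) ∧
    (∀ a : ℝ, 1 < a → ∃ N : ℕ, ∀ n : ℕ, N ≤ n →
      (centerpoleNumber n n : ENNReal) < ENNReal.ofReal (a ^ n)) := by
  have key : ∀ n : ℕ, 2 ≤ n → (centerpoleNumber n n : ENNReal) ≤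
      ENNReal.ofReal (Real.exp (18 * √(n * Real.log n) * Real.log n)) := by
    intro n hn
    obtain ⟨C, hC, hcard⟩ := Pool.Agent.P.MP_a5df39_co.main_bound n hn
    have h1 : centerpoleNumber n n ≤ (C.card : ℕ∞) := by
      rw [← Set.encard_coe_eq_coe_finsetCard]
      exact biInf_le (fun C : Set (Fin n → ℤ) => C.encard)
        (show (C : Set (Fin n → ℤ)) ∈ {C : Set (Fin n → ℤ) | IsCenterpole n n C} from hC)
    calc (centerpoleNumber n n : ENNReal) ≤ ((C.card : ℕ∞) : ENNReal) :=
          ENat.toENNReal_le.mpr h1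
      _ = ENNReal.ofReal (C.card : ℝ) := by simp
      _ ≤ _ := ENNReal.ofReal_le_ofReal hcard
  refine ⟨key, fun a ha => ?_⟩
  obtain ⟨N, hN⟩ := Pool.Agent.P.MP_a5df39_co.eventually_small a ha
  refine ⟨max N 2, fun n hn => (key n (le_of_max_le_right hn)).trans_lt ?_⟩
  exact (ENNReal.ofReal_lt_ofReal_iff (by positivity)).mpr (hN n (le_of_max_le_left hn))

end Pool.Agent.Results.MP_a5df39_co.Subexponential
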